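import Pool.Agent.H315R2.EB.Stubs

/-!
# RIG: rigidity of adapted bases (MP_26e62b_al)
-/

namespace Pool.Agent.H316R2.EB

open Module Pool.Agent.H315R2.EB
open scoped Pointwise

lemma cexp_self (m : ℕ) (hm : 0 < m) (i : Fin m) (q : ℤ) :
    cexp m ((i : ℤ) + q * m) i = q := by
  unfold cexp
  have h : ((i : ℕ) : ℤ) - ((i : ℕ) + q * m) = (-q) * m := by ring
  rw [h, Int.mul_ediv_cancel _ (by exact_mod_cast hm.ne')]
  simp

lemma cexp_self_succ (m : ℕ) (hm : 0 < m) (i : Fin m) (q : ℤ) :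
    cexp m ((i : ℤ) + q * m + 1) i = q + 1 := by
  unfold cexp
  have hm' : (0 : ℤ) < m := by exact_mod_cast hm
  have h : ((i : ℕ) : ℤ) - ((i : ℕ) + q * m + 1) = (m - 1) + (-q - 1) * m := by ring
  rw [h, Int.add_mul_ediv_right _ _ hm'.ne', Int.ediv_eq_zero_of_lt (by omega) (by omega)]
  ring

lemma cexp_succ_of_ne (m : ℕ) (hm : 0 < m) (i j : Fin m) (hij : j ≠ i) (q : ℤ) :
    cexp m ((i : ℤ) + q * m + 1) j = cexp m ((i : ℤ) + q * m) j := by
  unfold cexp
  have hm' : (0 : ℤ) < m := by exact_mod_cast hm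
  have hi := i.2
  have hj := j.2
  have hne : (j : ℕ) ≠ (i : ℕ) := fun h => hij (Fin.ext h)
  congr 1
  rcases lt_or_gt_of_ne hne with h | h
  · have h1 : ((j : ℕ) : ℤ) - ((i : ℕ) + q * m + 1) = ((j : ℤ) - i - 1 + m) + (-q - 1) * m := by ring
    have h2 : ((j : ℕ) : ℤ) - ((i : ℕ) + q * m) = ((j : ℤ) - i + m) + (-q - 1) * m := by ring
    rw [h1, h2, Int.add_mul_ediv_right _ _ hm'.ne', Int.add_mul_ediv_right _ _ hm'.ne',
      Int.ediv_eq_zero_of_lt (by omega) (by omega), Int.ediv_eq_zero_of_lt (by omega) (by omega)]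
  · have h1 : ((j : ℕ) : ℤ) - ((i : ℕ) + q * m + 1) = ((j : ℤ) - i - 1) + (-q) * m := by ring
    have h2 : ((j : ℕ) : ℤ) - ((i : ℕ) + q * m) = ((j : ℤ) - i) + (-q) * m := by ring
    rw [h1, h2, Int.add_mul_ediv_right _ _ hm'.ne', Int.add_mul_ediv_right _ _ hm'.ne',
      Int.ediv_eq_zero_of_lt (by omega) (by omega), Int.ediv_eq_zero_of_lt (by omega) (by omega)]

section

variable {K V : Type} [Field K] [AddCommGroup V] [Module K V]

lemma per_zpow (p : Kˣ) (m : ℕ) (e : ℤ → V) (h : ∀ k, e (k + m) = p • e k) (k q : ℤ) :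
    e (k + q * m) = p ^ q • e k := by
  induction q using Int.induction_on with
  | zero => simp
  | succ n ih =>
    have h1 : k + ((n : ℤ) + 1) * m = (k + n * m) + m := by ring
    rw [h1, h, ih, smul_smul, zpow_add_one, mul_comm]
  | pred n ih =>
    have h1 : k + (-(n : ℤ)) * m = (k + (-(n : ℤ) - 1) * m) + m := by ring
    rw [h1, h] at ih
    rw [zpow_sub_one, mul_comm (p ^ (-(n : ℤ))) p⁻¹, mul_smul, ← ih, inv_smul_smul]

end

/-- One half of the comparison. -/
lemma half (hV : St_VAL) (hL : St_LAM) {O K V : Type} [CommRing O] [IsDomain O]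
    [IsDiscreteValuationRing O]
    [Field K] [Algebra O K] [IsFractionRing O K] [AddCommGroup V] [Module K V] [Module O V]
    [IsScalarTower O K V] [FiniteDimensional K V] (p : Kˣ) (hp : IsUnif O p)
    (m : ℕ) (hm : 0 < m) (L : ℤ → Submodule O V) (e : ℤ → V) (b b' : Basis (Fin m) K V)
    (he : IsAdapted O p m L e)
    (hb : ∀ i : Fin m, b i = e i)
    (hL' : ∀ k, L k = Lam O p b' (cexp m k))
    (a a' : Fin m → ℤ) (haa : Lam O p b a = Lam O p b' a') (i : Fin m) (q : ℤ)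
    (hq : a i ≤ q) : a' i ≤ q := by
  obtain ⟨-, hv⟩ := hV O K p hp
  obtain ⟨-, hmem, -, -⟩ := hL O K V p hp (Fin m) b
  obtain ⟨-, hmem', -, -⟩ := hL O K V p hp (Fin m) b'
  -- the vector `x = p ^ q • b i` lies in `Lam b a`
  have hx : p ^ q • b i ∈ Lam O p b a := by
    rw [hmem]
    intro j
    by_cases hj : j = i
    · subst hj
      obtain ⟨r, hr⟩ := (hv (q - a j)).2 (by omega)
      refine ⟨r, ?_⟩
      rw [hr, Units.smul_def, map_smul, Finsupp.smul_apply, Basis.repr_self,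
        Finsupp.single_eq_same, smul_eq_mul, mul_one, ← Units.val_mul, ← zpow_add]
      congr 2
      ring
    · refine ⟨0, ?_⟩
      rw [Units.smul_def, map_smul, Finsupp.smul_apply, Basis.repr_self,
        Finsupp.single_eq_of_ne hj]
      simp
  have hxe : p ^ q • b i = e ((i : ℤ) + q * m) := by
    rw [per_zpow p m e he.per, hb]
  have h1 : e ((i : ℤ) + q * m) ∈ L ((i : ℤ) + q * m) := he.mem _
  have h2 : e ((i : ℤ) + q * m) ∉ L ((i : ℤ) + q * m + 1) := he.not_mem _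
  rw [hL', hmem'] at h1 h2
  rw [hxe, haa, hmem'] at hx
  by_contra hcon
  push Not at hcon
  apply h2
  intro j
  by_cases hj : j = i
  · subst hj
    rw [cexp_self_succ m hm]
    obtain ⟨r, hr⟩ := hx j
    obtain ⟨s, hs⟩ := (hv (a' j - (q + 1))).2 (by omega)
    refine ⟨r * s, ?_⟩
    rw [hr, map_mul, hs, mul_assoc, ← Units.val_mul, ← zpow_add]
    congr 3
    ring
  · rw [cexp_succ_of_ne m hm i j hj]
    exact h1 j

/-- RIG. -/
theorem RIG_proof (hV : St_VAL) (hL : St_LAM) : St_RIG := by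
  intro O K V _ _ _ _ _ _ _ _ _ _ _ p hp m hm L e e' b b' he he' hb hb' h h' a a' haa
  funext i
  apply le_antisymm
  · exact half hV hL p hp m hm L e' b' b he' hb' h a' a haa.symm i (a' i) le_rfl
  · exact half hV hL p hp m hm L e b b' he hb h' a a' haa i (a i) le_rfl

end Pool.Agent.H316R2.EB
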